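import Pool.Agent.Lib.MP_4075bc_lc.Core

/-! # A normal form of the Embedding Conjecture: systems of Horn and dual Horn conditions -/

namespace Pool.Agent.Results.MP_4075bc_lc.HornForm

open Pool.Agent.Lib.EC4075

/-- A term: one of the unknown sets (numbered by `κ`), or a constant: `M` (`true`) or `∅`
(`false`). -/
abbrev Term (κ : Type) : Type := κ ⊕ Bool

/-- Membership of a point in the set denoted by a term; `y j` says that the point lies in the
unknown set number `j`. -/
def ev {κ : Type} (y : κ → Prop) : Term κ → Prop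
  | Sum.inl j => y j
  | Sum.inr b => b = true

/-- A condition: a kind and three terms `s, t, u`. -/
abbrev Con (κ : Type) : Type := Bool × Term κ × Term κ × Term κ

/-- The condition `(true, s, t, u)` is the Horn condition `s ∧ t → u`, the condition
`(false, s, t, u)` is the dual Horn condition `s → t ∨ u`. -/
def Holds {κ : Type} (y : κ → Prop) (q : Con κ) : Prop :=
  if q.1 = true then (ev y q.2.1 ∧ ev y q.2.2.1 → ev y q.2.2.2)
  else (ev y q.2.1 → ev y q.2.2.1 ∨ ev y q.2.2.2)

theorem holds_true {κ : Type} (y : κ → Prop) (s t u : Term κ) :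
    Holds y (true, s, t, u) ↔ (ev y s ∧ ev y t → ev y u) := by
  unfold Holds; simp

theorem holds_false {κ : Type} (y : κ → Prop) (s t u : Term κ) :
    Holds y (false, s, t, u) ↔ (ev y s → ev y t ∨ ev y u) := by
  unfold Holds; simp

/-- Renaming of the unknowns. -/
def Con.map {κ κ' : Type} (e : κ → κ') (q : Con κ) : Con κ' :=
  (q.1, Sum.map e id q.2.1, Sum.map e id q.2.2.1, Sum.map e id q.2.2.2)

theorem ev_map {κ κ' : Type} (e : κ → κ') (y : κ' → Prop) (t : Term κ) :
    ev y (Sum.map e id t) ↔ ev (fun j => y (e j)) t := by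
  cases t <;> simp [ev]

theorem holds_map {κ κ' : Type} (e : κ → κ') (y : κ' → Prop) (q : Con κ) :
    Holds y (Con.map e q) ↔ Holds (fun j => y (e j)) q := by
  unfold Holds Con.map
  simp only [ev_map]

/-- The normal form: if the system with one condition for every Boolean type `x` of the
parameters is solvable in `K` for all parameters from `K`, then it has a monotone solution. -/
def NF {M : Type} (K : Set (Set M)) : Prop :=
  ∀ (m n : ℕ) (q : (Fin m → Prop) → Con (Fin n)),
    (∀ B : Fin m → Set M, (∀ i, B i ∈ K) → ∃ C : Fin n → Set M, (∀ j, C j ∈ K) ∧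
      ∀ z, Holds (fun j => z ∈ C j) (q (fun i => z ∈ B i))) →
    ∃ h : (Fin m → Prop) → (Fin n → Prop), Monotone h ∧ ∀ x, Holds (h x) (q x)

/-- The chain trick: several conditions for every type. -/
theorem many {M : Type} {K : Set (Set M)} (hNF : NF K) {m : ℕ} {κ Ω : Type} [Finite κ]
    [Finite Ω] [Nonempty Ω] (con : (Fin m → Prop) → Ω → Con κ)
    (hs : ∀ B : Fin m → Set M, (∀ i, B i ∈ K) → ∃ C : κ → Set M, (∀ j, C j ∈ K) ∧
      ∀ z ω, Holds (fun j => z ∈ C j) (con (fun i => z ∈ B i) ω)) :
    ∃ h : (Fin m → Prop) → (κ → Prop), Monotone h ∧ ∀ x ω, Holds (h x) (con x ω) := by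
  classical
  have := Fintype.ofFinite κ
  have := Fintype.ofFinite Ω
  let e : κ ≃ Fin (Fintype.card κ) := Fintype.equivFin κ
  set L := Fintype.card Ω with hL
  have hL0 : 0 < L := Fintype.card_pos
  let o : Fin L ≃ Ω := (Fintype.equivFin Ω).symm
  set N := L * Nat.card ((Fin m → Prop) → (Fin (Fintype.card κ) → Prop)) with hN
  let stage : (Fin (m + N) → Prop) → ℕ :=
    fun v => (Finset.univ.filter (fun i : Fin N => v (Fin.natAdd m i))).card
  let q : (Fin (m + N) → Prop) → Con (Fin (Fintype.card κ)) := fun v =>
    Con.map e (con (fun i => v (Fin.castAdd N i)) (o ⟨stage v % L, Nat.mod_lt _ hL0⟩))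
  obtain ⟨h', hmon, hh⟩ := hNF (m + N) (Fintype.card κ) q (by
    intro B hB
    obtain ⟨C, hC, hz⟩ := hs (fun i => B (Fin.castAdd N i)) (fun i => hB _)
    refine ⟨fun j => C (e.symm j), fun j => hC _, fun z => ?_⟩
    simp only [q]
    rw [holds_map]
    simpa using hz z _)
  let sec : (Fin m → Prop) → ℕ → (Fin (m + N) → Prop) :=
    fun x d => Fin.addCases (motive := fun _ => Prop) x (fun i => i.val < d)
  have hsec1 : ∀ x d i, sec x d (Fin.castAdd N i) = x i := by
    intro x d i; simp [sec]
  have hsec2 : ∀ x d i, sec x d (Fin.natAdd m i) = (i.val < d) := by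
    intro x d i; simp [sec]
  have hstage : ∀ x d, d ≤ N → stage (sec x d) = d := by
    intro x d hd
    simp only [stage, hsec2]
    have : (Finset.univ.filter (fun i : Fin N => i.val < d)) =
        (Finset.univ : Finset (Fin d)).map (Fin.castLEEmb hd) := by
      ext i
      simp only [Finset.mem_filter, Finset.mem_univ, true_and, Finset.mem_map]
      constructor
      · intro hi; exact ⟨⟨i.val, hi⟩, by ext; simp⟩
      · rintro ⟨j, rfl⟩; simp
    rw [this, Finset.card_map, Finset.card_univ, Fintype.card_fin]
  have hsecm : ∀ x x' d d', x ≤ x' → d ≤ d' → sec x d ≤ sec x' d' := by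
    intro x x' d d' hx hd i
    refine Fin.addCases (fun i => ?_) (fun i => ?_) i
    · rw [hsec1, hsec1]; exact hx i
    · rw [hsec2, hsec2]; intro h; exact h.trans_le hd
  let w : ℕ → ((Fin m → Prop) → (Fin (Fintype.card κ) → Prop)) := fun d x => h' (sec x d)
  have hw : Monotone w := fun d d' hdd x => hmon (hsecm x x d d' le_rfl hdd)
  obtain ⟨t, ht, hst⟩ := stable' w hw L
  have hbound : L * t + L ≤ N := by
    rw [hN, ← Nat.mul_succ]
    exact Nat.mul_le_mul_left _ ht
  refine ⟨fun x j => w (L * t) x (e j), ?_, fun x ω => ?_⟩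
  · intro x x' hx j
    exact hmon (hsecm x x' _ _ hx le_rfl) (e j)
  · obtain ⟨⟨j, hj⟩, hω⟩ := o.surjective ω
    have h1 := hh (sec x (L * t + j))
    simp only [q] at h1
    rw [holds_map] at h1
    have h2 : stage (sec x (L * t + j)) % L = j := by
      rw [hstage x _ (by omega), Nat.mul_add_mod, Nat.mod_eq_of_lt hj]
    have h3 : (o ⟨stage (sec x (L * t + j)) % L, Nat.mod_lt _ hL0⟩) = ω := by
      rw [← hω]; congr 1; ext; simpa using h2
    rw [h3] at h1
    simp only [hsec1] at h1
    have h4 : h' (sec x (L * t + j)) = w (L * t) x := by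
      have := congrFun (hst j hj.le) x
      exact this
    rw [h4] at h1
    exact h1

section
variable {M : Type} {K : Set (Set M)}

theorem sel_of_nf (h0 : ∅ ∈ K) (h1 : Set.univ ∈ K)
    (hU : ∀ A ∈ K, ∀ B ∈ K, A ∪ B ∈ K) (hI : ∀ A ∈ K, ∀ B ∈ K, A ∩ B ∈ K) (hNF : NF K)
    (m n : ℕ) (A : (Fin m → Fin 2) → (Fin n → Fin 2) → Prop) : Sel K A := by
  classical
  intro hA
  -- unknowns: `(S, true)` is the intersection over `S`, `(S, false)` the union over `S`
  let P : Finset (Fin n) → Term (Finset (Fin n) × Bool) := fun S => Sum.inl (S, true)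
  let Q : Finset (Fin n) → Term (Finset (Fin n) × Bool) := fun S => Sum.inl (S, false)
  let tt : Term (Finset (Fin n) × Bool) := Sum.inr true
  let ff : Term (Finset (Fin n) × Bool) := Sum.inr false
  let cv : (Fin m → Prop) → (Fin m → Fin 2) := fun x i => if x i then 0 else 1
  let con : (Fin m → Prop) →
      ((Finset (Fin n) × Finset (Fin n)) ⊕ (Finset (Fin n) × Finset (Fin n)) ⊕ Fin n ⊕
        (Fin n → Fin 2) ⊕ Bool) → Con (Finset (Fin n) × Bool) := fun x ω =>
    match ω with
    | Sum.inl (S, S') => (true, P S, P S', P (S ∪ S'))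
    | Sum.inr (Sum.inl (S, S')) => (false, Q (S ∪ S'), Q S, Q S')
    | Sum.inr (Sum.inr (Sum.inl j)) => (true, Q {j}, tt, P {j})
    | Sum.inr (Sum.inr (Sum.inr (Sum.inl y))) =>
        if A (cv x) y then (true, ff, ff, ff)
        else (true, P (Finset.univ.filter (fun j => y j = 0)), tt,
          Q (Finset.univ.filter (fun j => y j = 1)))
    | Sum.inr (Sum.inr (Sum.inr (Sum.inr b))) =>
        if b = true then (true, tt, tt, P ∅) else (true, Q ∅, tt, ff)
  obtain ⟨h, hm, hh⟩ := many hNF con (by
    intro B hB
    have hc : KMap K (fun z => (fun i => if z ∈ B i then 0 else 1 : Fin m → Fin 2)) := by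
      apply KMap.pi h1 hI
      intro i a
      have : {z | (if z ∈ B i then (0 : Fin 2) else 1) ≤ a} = if a = 0 then B i else Set.univ := by
        ext z
        by_cases ha : a = 0
        · subst ha
          by_cases hz : z ∈ B i <;> simp [hz]
        · have ha1 : a = 1 := by omega
          subst ha1
          by_cases hz : z ∈ B i <;> simp [hz]
      rw [this]
      split_ifs
      · exact hB i
      · exact h1
    obtain ⟨c', hc', hz⟩ := hA _ hc
    let Y : Fin n → Set M := fun j => {z | c' z j = 0}
    have hY : ∀ j, Y j ∈ K := by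
      intro j
      have hj := KMap.comp h0 hU hc' (φ := fun v : Fin n → Fin 2 => v j) (fun v v' hv => hv j) 0
      have : Y j = {z | ((fun v : Fin n → Fin 2 => v j) ∘ c') z ≤ 0} := by
        ext z; simp [Y]
      rw [this]; exact hj
    refine ⟨fun p => if p.2 = true then ⋂ j ∈ p.1, Y j else ⋃ j ∈ p.1, Y j, ?_, ?_⟩
    · rintro ⟨S, b⟩
      cases b
      · simpa using finset_biUnion_mem h0 hU S Y (fun j _ => hY j)
      · simpa using finset_biInter_mem h1 hI S Y (fun j _ => hY j)
    · rintro z (⟨S, S'⟩ | ⟨S, S'⟩ | j | y | b)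
      · simp only [con, holds_true, P, ev, if_true, Set.mem_iInter]
        rintro ⟨h1, h2⟩ j hj
        rcases Finset.mem_union.1 hj with h3 | h3
        · exact h1 j h3
        · exact h2 j h3
      · simp only [con, holds_false, Q, ev, Bool.false_eq_true, if_false, Set.mem_iUnion,
          exists_prop]
        rintro ⟨j, hj, hz⟩
        rcases Finset.mem_union.1 hj with h3 | h3
        · exact Or.inl ⟨j, h3, hz⟩
        · exact Or.inr ⟨j, h3, hz⟩
      · simp [con, holds_true, P, Q, tt, ev]
      · simp only [con]
        split_ifs with hAy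
        · rw [holds_true]; simp [ff, ev]
        · rw [holds_true]
          simp only [P, Q, tt, ev, Bool.false_eq_true, if_true, if_false, Set.mem_iInter,
            Set.mem_iUnion, Finset.mem_filter, Finset.mem_univ, true_and, exists_prop, and_true]
          intro h2
          by_contra hcon
          apply hAy
          have : c' z = y := by
            funext j
            by_cases hj : y j = 0
            · rw [hj]; exact h2 j hj
            · have hj1 : y j = 1 := by omega
              have h3 : z ∉ Y j := fun h4 => hcon ⟨j, hj1, h4⟩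
              have h4 : c' z j ≠ 0 := h3
              omega
          rw [← this]
          exact hz z
      · cases b
        · simp [con, holds_true, Q, tt, ff, ev]
        · simp [con, holds_true, P, tt, ev])
  let X : (Fin m → Fin 2) → (Fin m → Prop) := fun v i => v i = 0
  have hcvX : ∀ v, cv (X v) = v := by
    intro v; funext i
    simp only [cv, X]
    split_ifs with h2
    · exact h2.symm
    · omega
  refine ⟨fun v j => if h (X v) ({j}, true) then 0 else 1, ?_, fun v => ?_⟩
  · intro v v' hv j
    have h2 : h (X v') ≤ h (X v) := hm (fun i (hi : v' i = 0) => by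
      have := hv i
      rw [hi] at this
      exact le_antisymm this (Fin.zero_le _))
    simp only
    by_cases h3 : h (X v') ({j}, true)
    · rw [if_pos h3, if_pos (h2 _ h3)]
    · rw [if_neg h3]; exact Fin.le_last _
  · by_contra hcon
    set g : Fin n → Fin 2 := fun j => if h (X v) ({j}, true) then 0 else 1 with hg
    have hP : ∀ S : Finset (Fin n), (∀ j ∈ S, h (X v) ({j}, true)) → h (X v) (S, true) := by
      intro S
      induction S using Finset.induction_on with
      | empty =>
        intro _
        have := hh (X v) (Sum.inr (Sum.inr (Sum.inr (Sum.inr true))))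
        simpa [con, holds_true, P, tt, ev] using this
      | insert a S ha ih =>
        intro hS
        have h2 := hh (X v) (Sum.inl ({a}, S))
        simp only [con, holds_true, P, ev] at h2
        have h3 := h2 ⟨hS a (Finset.mem_insert_self a S),
          ih (fun j hj => hS j (Finset.mem_insert_of_mem hj))⟩
        rwa [← Finset.insert_eq] at h3
    have hQ : ∀ S : Finset (Fin n), h (X v) (S, false) → ∃ j ∈ S, h (X v) ({j}, false) := by
      intro S
      induction S using Finset.induction_on with
      | empty =>
        intro h3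
        have := hh (X v) (Sum.inr (Sum.inr (Sum.inr (Sum.inr false))))
        simp [con, holds_true, Q, tt, ff, ev] at this
        exact absurd h3 this
      | insert a S ha ih =>
        intro hS
        have h2 := hh (X v) (Sum.inr (Sum.inl ({a}, S)))
        simp only [con, holds_false, Q, ev] at h2
        rw [← Finset.insert_eq] at h2
        rcases h2 hS with h3 | h3
        · exact ⟨a, Finset.mem_insert_self a S, h3⟩
        · obtain ⟨j, hj, h4⟩ := ih h3
          exact ⟨j, Finset.mem_insert_of_mem hj, h4⟩
    have hcl := hh (X v) (Sum.inr (Sum.inr (Sum.inr (Sum.inl g))))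
    simp only [con, hcvX] at hcl
    rw [if_neg hcon, holds_true] at hcl
    simp only [P, Q, tt, ev, and_true] at hcl
    have h5 : h (X v) (Finset.univ.filter (fun j => g j = 0), true) := by
      apply hP
      intro j hj
      simp only [Finset.mem_filter, Finset.mem_univ, true_and, hg] at hj
      by_contra h6
      rw [if_neg h6] at hj
      exact absurd hj (by decide)
    obtain ⟨j, hj, h6⟩ := hQ _ (hcl h5)
    have h7 := hh (X v) (Sum.inr (Sum.inr (Sum.inl j)))
    simp only [con, holds_true, P, Q, tt, ev, and_true] at h7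
    have h8 := h7 h6
    simp only [Finset.mem_filter, Finset.mem_univ, true_and, hg] at hj
    rw [if_pos h8] at hj
    exact absurd hj (by decide)

theorem nf_of_ec (h1 : Set.univ ∈ K)
    (hI : ∀ A ∈ K, ∀ B ∈ K, A ∩ B ∈ K) (h : ∀ k, EC K k) : NF K := by
  classical
  intro m n q hq
  obtain ⟨g, hg, hg2⟩ := sel_of_ec (G := (Fin m → Prop)ᵒᵈ) (G' := (Fin n → Prop)ᵒᵈ) hI h
    (fun x y => Holds (OrderDual.ofDual y) (q (OrderDual.ofDual x))) (by
    intro c hc
    obtain ⟨C, hC, hz⟩ := hq (fun i => {z | OrderDual.ofDual (c z) i}) (by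
      intro i
      have h2 := hc (OrderDual.toDual (fun j => j = i))
      have : {z | c z ≤ OrderDual.toDual (fun j => j = i)} = {z | OrderDual.ofDual (c z) i} := by
        ext z
        constructor
        · intro (h3 : (fun j => j = i) ≤ OrderDual.ofDual (c z))
          exact h3 i rfl
        · intro (h3 : OrderDual.ofDual (c z) i)
          show (fun j => j = i) ≤ OrderDual.ofDual (c z)
          rintro j rfl
          exact h3
      rw [← this]; exact h2)
    refine ⟨fun z => OrderDual.toDual (fun j => z ∈ C j), ?_, fun z => hz z⟩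
    intro a
    have : {z | OrderDual.toDual (fun j => z ∈ C j) ≤ a} =
        ⋂ j ∈ (Finset.univ.filter (fun j => OrderDual.ofDual a j)), C j := by
      ext z
      simp only [Set.mem_iInter, Finset.mem_filter, Finset.mem_univ, true_and]
      exact Iff.rfl
    rw [this]
    exact finset_biInter_mem h1 hI _ _ (fun j _ => hC j))
  refine ⟨fun x => OrderDual.ofDual (g (OrderDual.toDual x)), fun x y hxy => ?_, fun x => hg2 _⟩
  exact hg (show OrderDual.toDual y ≤ OrderDual.toDual x from hxy)

end

/-- Let `K` be a class of subsets of a set `M` which contains `∅` and `M` and is closed under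
finite unions and intersections (for example `K = NP`). The implication of the Embedding
Conjecture holds for `K` and all `k` if and only if `K` has the property `NF`. -/
theorem result (M : Type) (K : Set (Set M)) (hempty : ∅ ∈ K) (huniv : Set.univ ∈ K)
    (hunion : ∀ A ∈ K, ∀ B ∈ K, A ∪ B ∈ K) (hinter : ∀ A ∈ K, ∀ B ∈ K, A ∩ B ∈ K) :
    (∀ k, EC K k) ↔
      ∀ (m n : ℕ) (q : (Fin m → Prop) → Con (Fin n)),
        (∀ B : Fin m → Set M, (∀ i, B i ∈ K) → ∃ C : Fin n → Set M, (∀ j, C j ∈ K) ∧
          ∀ z, Holds (fun j => z ∈ C j) (q (fun i => z ∈ B i))) →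
        ∃ h : (Fin m → Prop) → (Fin n → Prop), Monotone h ∧ ∀ x, Holds (h x) (q x) :=
  ⟨nf_of_ec huniv hinter, fun h k =>
    ec_of_sel hempty hunion (sel_of_nf hempty huniv hunion hinter h) k⟩

end Pool.Agent.Results.MP_4075bc_lc.HornForm
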