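import Pool.Agent.Lib.MP_4075bc_lc.PH.StochD

/-! # Inclusions of NP-partition classes give stochastic embeddings -/

namespace Pool.Agent.Results.MP_4075bc_lc.StochasticEmbedding

open Pool.Agent.Lib.EC4075 Pool.Agent.Lib.EC4075.PH

/-- Assume that the polynomial time hierarchy does not collapse. If `NP(G, f) ⊆ NP(G', f')`, then
there are probability distributions `π x` on `G'`, for `x ∈ G`, such that `π x` is concentrated on
the elements with label `f x` and `π x` increases stochastically with `x`. -/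
theorem result (s : ℕ) (hs : 2 ≤ s) (hPH : PHInfinite s)
    (G G' : Type) [Lattice G] [BoundedOrder G] [Finite G]
    [Lattice G'] [BoundedOrder G'] [Fintype G'] (k : ℕ) (f : G → Fin k) (f' : G' → Fin k)
    (hsub : Cls (NP s) f ⊆ Cls (NP s) f') :
    ∃ π : G → G' → ℝ, (∀ x y, 0 ≤ π x y) ∧ (∀ x, ∑ y, π x y = 1) ∧
      (∀ x y, π x y ≠ 0 → f' y = f x) ∧
      ∀ x x', x ≤ x' → ∀ S : Finset G', IsLowerSet (S : Set G') →
        ∑ y ∈ S, π x' y ≤ ∑ y ∈ S, π x y := by
  classical
  obtain ⟨π, ⟨h1, h2, h3⟩, h4⟩ := stochastic_np hs hPH f f' hsub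
  refine ⟨π, h1, h2, h3, fun x x' hxx S hS => ?_⟩
  have h5 := h4 x x' hxx S hS
  have e : ∀ μ : G' → ℝ, mass μ (S : Set G') = ∑ y ∈ S, μ y := by
    intro μ
    unfold mass
    apply Finset.sum_congr _ (fun _ _ => rfl)
    ext y; simp
  rwa [e, e] at h5

end Pool.Agent.Results.MP_4075bc_lc.StochasticEmbedding
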