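import Pool.Agent.Lib.MP_4075bc_lc.PH.Final

/-! # The Embedding Conjecture in the presence of symmetric label-preserving operations -/

namespace Pool.Agent.Results.MP_4075bc_lc.SymmetricOperations

open Pool.Agent.Lib.EC4075 Pool.Agent.Lib.EC4075.PH

/-- Assume that the polynomial time hierarchy does not collapse. Let `(G, f)` and `(G', f')` be
k-lattices with operations `t n : G × G'^n → G'`, `n > 0`, which are monotone, symmetric in the
last `n` arguments and satisfy `f' (t n x y) = f x` whenever all `y i` have the label `f x`.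
If `NP(G, f) ⊆ NP(G', f')`, then `(G, f) ≤ (G', f')`. -/
theorem result (s : ℕ) (hs : 2 ≤ s) (hPH : PHInfinite s)
    (G G' : Type) [Lattice G] [BoundedOrder G] [Finite G]
    [Lattice G'] [BoundedOrder G'] [Finite G'] (k : ℕ) (f : G → Fin k) (f' : G' → Fin k)
    (t : ∀ n : ℕ, G → (Fin n → G') → G')
    (hmono : ∀ n, 0 < n → ∀ x x' y y', x ≤ x' → y ≤ y' → t n x y ≤ t n x' y')
    (hsymm : ∀ n, 0 < n → ∀ x y (σ : Equiv.Perm (Fin n)), t n x (fun i => y (σ i)) = t n x y)
    (hlab : ∀ n, 0 < n → ∀ x y, (∀ i, f' (y i) = f x) → f' (t n x y) = f x)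
    (hsub : Cls (NP s) f ⊆ Cls (NP s) f') : Emb f f' := by
  have := Fintype.ofFinite G'
  obtain ⟨π, h1, h2⟩ := stochastic_np hs hPH f f' hsub
  exact emb_of_ops f f' t hmono hsymm hlab π h1 h2

/-- Special case: there is an up-set `U` of `G` such that the label classes of `(G', f')` for the
labels of points of `U` are closed under joins, and those for the labels of the other points of
`G` are closed under meets. With `U = ∅` or `U = G` this contains the cases that all label classes
of `G'` are closed under meets, or all under joins. -/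
theorem upset_case (s : ℕ) (hs : 2 ≤ s) (hPH : PHInfinite s)
    (G G' : Type) [Lattice G] [BoundedOrder G] [Finite G]
    [Lattice G'] [BoundedOrder G'] [Finite G'] (k : ℕ) (f : G → Fin k) (f' : G' → Fin k)
    (U : Set G) (hU : IsUpperSet U)
    (hjoin : ∀ x ∈ U, ∀ y z, f' y = f x → f' z = f x → f' (y ⊔ z) = f x)
    (hmeet : ∀ x ∉ U, ∀ y z, f' y = f x → f' z = f x → f' (y ⊓ z) = f x)
    (hsub : Cls (NP s) f ⊆ Cls (NP s) f') : Emb f f' := by
  classical
  have hne : ∀ n, 0 < n → (Finset.univ : Finset (Fin n)).Nonempty :=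
    fun n hn => ⟨⟨0, hn⟩, Finset.mem_univ _⟩
  refine result s hs hPH G G' k f f' (fun n x y => if x ∈ U then Finset.univ.sup y
    else Finset.univ.inf y) ?_ ?_ ?_ hsub
  · intro n hn x x' y y' hx hy
    have hinfsup : Finset.univ.inf y ≤ Finset.univ.sup y' := by
      obtain ⟨i, hi⟩ := hne n hn
      exact ((Finset.inf_le hi).trans (hy i)).trans (Finset.le_sup (f := y') hi)
    by_cases h1 : x ∈ U
    · rw [if_pos h1, if_pos (hU hx h1)]
      exact Finset.sup_mono_fun (fun i _ => hy i)
    · rw [if_neg h1]
      by_cases h2 : x' ∈ U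
      · rw [if_pos h2]; exact hinfsup
      · rw [if_neg h2]
        exact Finset.inf_mono_fun (fun i _ => hy i)
  · intro n _ x y σ
    have e1 : Finset.univ.sup (fun i => y (σ i)) = Finset.univ.sup y := by
      apply le_antisymm
      · exact Finset.sup_le (fun i _ => Finset.le_sup (f := y) (Finset.mem_univ (σ i)))
      · refine Finset.sup_le (fun i _ => ?_)
        have := Finset.le_sup (f := fun i => y (σ i)) (Finset.mem_univ (σ.symm i))
        simpa using this
    have e2 : Finset.univ.inf (fun i => y (σ i)) = Finset.univ.inf y := by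
      apply le_antisymm
      · refine Finset.le_inf (fun i _ => ?_)
        have := Finset.inf_le (f := fun i => y (σ i)) (Finset.mem_univ (σ.symm i))
        simpa using this
      · exact Finset.le_inf (fun i _ => Finset.inf_le (f := y) (Finset.mem_univ (σ i)))
    rw [e1, e2]
  · intro n hn x y hy
    split_ifs with h1
    · rw [← Finset.sup'_eq_sup (hne n hn)]
      exact Finset.sup'_induction (hne n hn) y (p := fun z => f' z = f x)
        (fun a ha b hb => hjoin x h1 a b ha hb) (fun i _ => hy i)
    · rw [← Finset.inf'_eq_inf (hne n hn)]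
      exact Finset.inf'_induction (hne n hn) y (p := fun z => f' z = f x)
        (fun a ha b hb => hmeet x h1 a b ha hb) (fun i _ => hy i)

end Pool.Agent.Results.MP_4075bc_lc.SymmetricOperations
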