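import Pool.Agent.Lib.MP_4075bc_lc.Core

/-! # The Embedding Conjecture for three labels implies the Embedding Conjecture -/

namespace Pool.Agent.Results.MP_4075bc_lc.ThreeLabels

open Pool.Agent.Lib.EC4075

/-- The 3-lattice `Λ(m, r)`: the lattice is `{0, 1}^m × {0, 1, ..., r}` with the componentwise
order; the label of `(x, d)` is `2` if `d` is odd; if `d = 2q`, then it is `x j` where `j` is the
residue of `q` modulo `m + 1`, if `j < m`, and `0` if `j = m`. -/
def lab (m r : ℕ) (p : (Fin m → Fin 2) × Fin (r + 1)) : Fin 3 :=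
  if p.2.val % 2 = 1 then 2
  else if h : p.2.val / 2 % (m + 1) < m then (p.1 ⟨p.2.val / 2 % (m + 1), h⟩).castSucc
  else 0

/-- The right hand 3-lattice used in the proof. -/
def labR {m n r : ℕ} (A : (Fin m → Fin 2) → (Fin n → Fin 2) → Prop)
    [∀ x y, Decidable (A x y)] (p : ((Fin m → Fin 2) × (Fin n → Fin 2)) × Fin (r + 1)) : Fin 3 :=
  if p.2.val % 2 = 1 then 2
  else if h : p.2.val / 2 % (m + 1) < m then (p.1.1 ⟨p.2.val / 2 % (m + 1), h⟩).castSucc
  else if A p.1.1 p.1.2 then 0 else 1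

theorem castSucc_ne_two (i : Fin 2) : (i.castSucc : Fin 3) ≠ 2 := by
  revert i; decide

theorem lab_eq_two {m r : ℕ} (p : (Fin m → Fin 2) × Fin (r + 1)) :
    lab m r p = 2 ↔ p.2.val % 2 = 1 := by
  unfold lab
  constructor
  · intro h
    by_contra h1
    rw [if_neg h1] at h
    split_ifs at h with h2
    · exact castSucc_ne_two _ h
    · exact absurd h (by decide)
  · intro h
    rw [if_pos h]

theorem labR_eq_two {m n r : ℕ} (A : (Fin m → Fin 2) → (Fin n → Fin 2) → Prop)
    [∀ x y, Decidable (A x y)] (p : ((Fin m → Fin 2) × (Fin n → Fin 2)) × Fin (r + 1)) :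
    labR A p = 2 ↔ p.2.val % 2 = 1 := by
  unfold labR
  constructor
  · intro h
    by_contra h1
    rw [if_neg h1] at h
    split_ifs at h with h2 h3
    · exact castSucc_ne_two _ h
    · exact absurd h (by decide)
    · exact absurd h (by decide)
  · intro h
    rw [if_pos h]

theorem sel_of_family {M : Type} {K : Set (Set M)} (h0 : ∅ ∈ K)
    (hU : ∀ A ∈ K, ∀ B ∈ K, A ∪ B ∈ K) (hI : ∀ A ∈ K, ∀ B ∈ K, A ∩ B ∈ K)
    (hfam : ∀ (m r : ℕ) (G' : Type) [Lattice G'] [BoundedOrder G'] [Finite G']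
      (f' : G' → Fin 3), Cls K (lab m r) ⊆ Cls K f' → Emb (lab m r) f')
    (m n : ℕ) (A : (Fin m → Fin 2) → (Fin n → Fin 2) → Prop) : Sel K A := by
  classical
  intro hA
  set L := 2 * (m + 1) with hL
  set N := Nat.card ((Fin m → Fin 2) → (Fin m → Fin 2) × (Fin n → Fin 2)) with hN
  set r := L * N with hr
  have hsub : Cls K (lab m r) ⊆ Cls K (labR (r := r) A) := by
    rw [cls_subset_iff]
    intro c hc
    have hc1 : KMap K (fun z => (c z).1) :=
      hc.comp h0 hU (φ := Prod.fst) monotone_fst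
    have hc2 : KMap K (fun z => (c z).2) :=
      hc.comp h0 hU (φ := Prod.snd) monotone_snd
    obtain ⟨c', hc', hz⟩ := hA _ hc1
    refine ⟨fun z => (((c z).1, c' z), (c z).2), (hc1.prod hI hc').prod hI hc2, fun z => ?_⟩
    unfold lab labR
    simp only [if_pos (hz z)]
  obtain ⟨φ, hφ, hlab⟩ := hfam m r _ (labR (r := r) A) hsub
  -- the second coordinate is fixed
  have hpar : ∀ x d, (φ (x, d)).2.val % 2 = 1 ↔ d.val % 2 = 1 := by
    intro x d
    rw [← labR_eq_two A, hlab, lab_eq_two]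
  have hstep : ∀ (x : Fin m → Fin 2) (i : ℕ) (hi : i + 1 < r + 1),
      (φ (x, ⟨i, by omega⟩)).2.val + 1 ≤ (φ (x, ⟨i + 1, hi⟩)).2.val := by
    intro x i hi
    have h1 : (φ (x, ⟨i, by omega⟩)).2 ≤ (φ (x, ⟨i + 1, hi⟩)).2 := by
      apply (hφ _).2
      exact ⟨le_rfl, by simp [Fin.le_def]⟩
    have h1' : (φ (x, ⟨i, by omega⟩)).2.val ≤ (φ (x, ⟨i + 1, hi⟩)).2.val := h1
    have h2 := hpar x ⟨i, by omega⟩
    have h3 := hpar x ⟨i + 1, hi⟩
    simp only at h2 h3
    omega
  have hgrow : ∀ (x : Fin m → Fin 2) (j i : ℕ) (hi : i + j < r + 1),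
      (φ (x, ⟨i, by omega⟩)).2.val + j ≤ (φ (x, ⟨i + j, hi⟩)).2.val := by
    intro x j
    induction j with
    | zero => intro i hi; simp
    | succ j ih =>
      intro i hi
      have h1 := ih i (by omega)
      have h2 := hstep x (i + j) (by omega)
      have h3 : (⟨i + (j + 1), hi⟩ : Fin (r + 1)) = ⟨i + j + 1, by omega⟩ := by
        ext; simp; omega
      rw [h3]
      omega
  have hfix : ∀ (x : Fin m → Fin 2) (d : Fin (r + 1)), (φ (x, d)).2 = d := by
    intro x d
    obtain ⟨d, hd⟩ := d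
    have h1 := hgrow x d 0 (by omega)
    have h2 := hgrow x (r - d) d (by omega)
    have h3 := (φ (x, ⟨d + (r - d), by omega⟩)).2.isLt
    have h4 : (⟨0 + d, by omega⟩ : Fin (r + 1)) = ⟨d, hd⟩ := by ext; simp
    rw [h4] at h1
    apply Fin.ext
    simp only
    omega
  -- a block on which the first coordinate is constant
  let w : ℕ → ((Fin m → Fin 2) → (Fin m → Fin 2) × (Fin n → Fin 2)) :=
    fun d x => (φ (x, ⟨min d r, by omega⟩)).1
  have hw : Monotone w := by
    intro d d' hdd x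
    apply (hφ _).1
    refine ⟨le_rfl, ?_⟩
    simp only [Fin.mk_le_mk]
    omega
  obtain ⟨t, ht, hst⟩ := stable' w hw L
  have hbound : L * t + L ≤ r := by
    rw [hr, ← Nat.mul_succ]
    exact Nat.mul_le_mul_left _ ht
  have hpt : ∀ (x : Fin m → Fin 2) (j : ℕ) (hj : j ≤ m),
      φ (x, ⟨L * t + 2 * j, by omega⟩) = (w (L * t) x, ⟨L * t + 2 * j, by omega⟩) := by
    intro x j hj
    apply Prod.ext
    · have h1 := congrFun (hst (2 * j) (by omega)) x
      simp only [w] at h1 ⊢
      rw [← h1]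
      congr 3
      apply Fin.ext
      simp only
      omega
    · exact hfix _ _
  have hmod : ∀ j, j ≤ m → (L * t + 2 * j) % 2 = 0 ∧ (L * t + 2 * j) / 2 % (m + 1) = j := by
    intro j hj
    have e1 : L * t + 2 * j = 2 * ((m + 1) * t + j) := by rw [hL]; ring
    rw [e1]
    refine ⟨Nat.mul_mod_right _ _, ?_⟩
    rw [Nat.mul_div_cancel_left _ (by norm_num), Nat.mul_add_mod, Nat.mod_eq_of_lt (by omega)]
  have hlabel : ∀ (x : Fin m → Fin 2), (w (L * t) x).1 = x ∧ A x (w (L * t) x).2 := by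
    intro x
    have hA1 : (w (L * t) x).1 = x := by
      funext j
      obtain ⟨j, hj⟩ := j
      have h1 := hlab (x, ⟨L * t + 2 * j, by omega⟩)
      rw [hpt x j hj.le] at h1
      obtain ⟨h2, h3⟩ := hmod j hj.le
      unfold lab labR at h1
      simp only [h2, h3, hj, dif_pos, zero_ne_one, if_false] at h1
      exact Fin.castSucc_injective _ h1
    refine ⟨hA1, ?_⟩
    have h1 := hlab (x, ⟨L * t + 2 * m, by omega⟩)
    rw [hpt x m le_rfl] at h1
    obtain ⟨h2, h3⟩ := hmod m le_rfl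
    unfold lab labR at h1
    simp only [h2, h3, lt_irrefl, dif_neg, not_false_eq_true, zero_ne_one, if_false] at h1
    by_contra hcon
    rw [hA1, if_neg hcon] at h1
    exact absurd h1 (by decide)
  refine ⟨fun x => (w (L * t) x).2, fun x y hxy => ?_, fun x => (hlabel x).2⟩
  simp only [w]
  exact ((hφ (show (x, _) ≤ (y, _) from ⟨hxy, le_rfl⟩)).1).2

/-- Let `K` be a class of subsets of a set `M` which contains `∅` and is closed under
unions and intersections of two sets (for example `K = NP`). The implication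
`K(G, f) ⊆ K(G', f') → (G, f) ≤ (G', f')` holds for all `k` and all pairs of k-lattices if and
only if it holds for `k = 3` and all pairs in which `(G, f)` is one of the explicit 3-lattices
`Λ(m, r)` on `{0, 1}^m × {0, ..., r}`. -/
theorem result (M : Type) (K : Set (Set M)) (hempty : ∅ ∈ K)
    (hunion : ∀ A ∈ K, ∀ B ∈ K, A ∪ B ∈ K) (hinter : ∀ A ∈ K, ∀ B ∈ K, A ∩ B ∈ K) :
    (∀ k, EC K k) ↔
      ∀ (m r : ℕ) (G' : Type) [Lattice G'] [BoundedOrder G'] [Finite G'] (f' : G' → Fin 3),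
        Cls K (lab m r) ⊆ Cls K f' → Emb (lab m r) f' := by
  constructor
  · intro h m r G' _ _ _ f' hsub
    exact h 3 _ G' (lab m r) f' hsub
  · intro h
    exact fun k => ec_of_sel hempty hunion (sel_of_family hempty hunion hinter h) k

end Pool.Agent.Results.MP_4075bc_lc.ThreeLabels
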